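import Mathlib
import Pool.Agent.Q6.ThreeCol.Step

/-!
# MP_2fb0b3_al, Q1: yes

Every finite solvable permutation group has a 3-colouring whose colour-preserving subgroup is a
2-group.
-/

namespace Pool.Agent.Results.MP_2fb0b3_al.ThreeColours

open Equiv

/-- The colour-preserving subgroup `G_γ`. -/
def colourPreserving {Ω : Type} (G : Subgroup (Perm Ω)) (γ : Ω → Fin 3) : Subgroup (Perm Ω) where
  carrier := {g | g ∈ G ∧ ∀ ω, γ (g ω) = γ ω}
  one_mem' := ⟨G.one_mem, fun _ => rfl⟩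
  mul_mem' := by
    rintro a b ⟨ha, ha'⟩ ⟨hb, hb'⟩
    refine ⟨G.mul_mem ha hb, fun ω => ?_⟩
    show γ (a (b ω)) = γ ω
    rw [ha', hb']
  inv_mem' := by
    rintro a ⟨ha, ha'⟩
    refine ⟨G.inv_mem ha, fun ω => ?_⟩
    rw [← ha' (a⁻¹ ω)]
    congr 1
    exact a.apply_symm_apply ω

/-- Every finite solvable permutation group `G` on a finite set `Ω` admits a 3-colouring `γ` of
`Ω` such that the order of `G_γ` is a power of two. -/
theorem result : ∀ (Ω : Type) [Finite Ω] (G : Subgroup (Perm Ω)), Group.IsSolvable G →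
    ∃ γ : Ω → Fin 3, ∃ k : ℕ, Nat.card (colourPreserving G γ) = 2 ^ k := by
  intro Ω _ G hG
  obtain ⟨γ, hγ⟩ := Q6.ThreeCol.main (Nat.card Ω) Ω le_rfl G hG
  refine ⟨γ, ?_⟩
  have : Fact (Nat.Prime 2) := ⟨Nat.prime_two⟩
  rw [← IsPGroup.iff_card]
  rintro ⟨g, hg, hg'⟩
  obtain ⟨k, hk⟩ := hγ g hg hg'
  exact ⟨k, Subtype.ext hk⟩

end Pool.Agent.Results.MP_2fb0b3_al.ThreeColours
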